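import Mathlib

/-! Convolution on `ℓ¹(G)` is not uniformly open for an infinite group `G` of bounded exponent. -/

namespace Pool.Agent.Results.MP_09b497_an.NotUnif

open scoped InnerProductSpace ComplexConjugate
open Complex

variable {G : Type*} [Group G]

/-- convolution of functions on `G` -/
noncomputable def conv (f h : G → ℂ) : G → ℂ := fun x => ∑' y, f y * h (y⁻¹ * x)

/-- membership in `ℓ¹` -/
def L1 {G : Type*} (f : G → ℂ) : Prop := Summable fun g => ‖f g‖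

/-- the `ℓ¹` distance -/
noncomputable def dist1 {G : Type*} (f h : G → ℂ) : ℝ := ∑' g, ‖f g - h g‖

/-- `ℓ¹(G)` has uniformly open multiplication -/
def UnifOpen (G : Type*) [Group G] : Prop :=
  ∀ ε : ℝ, 0 < ε → ∃ δ : ℝ, 0 < δ ∧ ∀ a b c : G → ℂ, L1 a → L1 b → L1 c →
    dist1 c (conv a b) < δ →
    ∃ x y : G → ℂ, L1 x ∧ L1 y ∧ dist1 x a < ε ∧ dist1 y b < ε ∧ c = conv x y

noncomputable abbrev E (G : Type*) := lp (fun _ : G => ℂ) 2

noncomputable def L (g : G) : E G →ₗᵢ[ℂ] E G where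
  toFun v := ⟨fun x => v (g⁻¹ * x), memℓp_gen
    ((Equiv.mulLeft g⁻¹).summable_iff.2 (v.2.summable (by simp)))⟩
  map_add' _ _ := rfl
  map_smul' _ _ := rfl
  norm_map' v := by
    rw [lp.norm_eq_tsum_rpow (by simp), lp.norm_eq_tsum_rpow (by simp)]
    exact congrArg (· ^ _) ((Equiv.mulLeft g⁻¹).tsum_eq fun x => ‖v x‖ ^ (2 : ENNReal).toReal)

theorem L_apply (g : G) (v : E G) (x : G) : L g v x = v (g⁻¹ * x) := rfl

theorem L_mul (g h : G) (v : E G) : L (g * h) v = L g (L h v) := by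
  ext x; simp [L_apply, mul_assoc]

def Rep (A : E G →ₗ[ℂ] E G) : Prop :=
  ∃ a : G → ℂ, Summable (fun g => ‖a g‖) ∧ ∀ v, HasSum (fun g => a g • L g v) (A v)

theorem Rep.add {A B : E G →ₗ[ℂ] E G} : Rep A → Rep B → Rep (A + B)
  | ⟨a, h1, h2⟩, ⟨b, h3, h4⟩ => ⟨a + b, (h1.add h3).of_nonneg_of_le (fun _ => norm_nonneg _)
      fun _ => norm_add_le _ _, fun v => by simpa [add_smul] using (h2 v).add (h4 v)⟩

theorem Rep.smul {A : E G →ₗ[ℂ] E G} (c : ℂ) : Rep A → Rep (c • A)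
  | ⟨a, h1, h2⟩ => ⟨c • a, by simpa using h1.mul_left ‖c‖,
      fun v => by simpa [mul_smul] using (h2 v).const_smul c⟩

theorem Rep.comp {A : E G →ₗ[ℂ] E G} (h : G) : Rep A → Rep (A ∘ₗ (L h).toLinearMap)
  | ⟨a, h1, h2⟩ => ⟨fun g => a (g * h⁻¹), (Equiv.mulRight h⁻¹).summable_iff.2 h1, fun v =>
      (Equiv.mulRight h).hasSum_iff.1 (by simpa [Function.comp_def, L_mul] using h2 (L h v))⟩

theorem rep_zero : Rep (0 : E G →ₗ[ℂ] E G) := ⟨0, by simp, fun v => by simp⟩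

theorem rep_id : Rep (LinearMap.id : E G →ₗ[ℂ] E G) := by
  classical
  refine ⟨Pi.single 1 1, summable_of_ne_finset_zero (s := {1}) fun g hg => by
    simp [Pi.single_eq_of_ne (Finset.notMem_singleton.1 hg)], fun v => ?_⟩
  have : v = (Pi.single 1 1 : G → ℂ) 1 • L 1 v := by ext x; simp [L_apply]
  rw [LinearMap.id_apply]
  nth_rewrite 2 [this]
  exact hasSum_single 1 fun g hg => by simp [Pi.single_eq_of_ne hg]

noncomputable def Q (H : Subgroup G) [Fintype H] : E G →ₗ[ℂ] E G :=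
  ((Fintype.card H : ℂ)⁻¹) • ∑ h : H, (L (h : G)).toLinearMap

theorem Q_apply (H : Subgroup G) [Fintype H] (v : E G) :
    Q H v = ((Fintype.card H : ℂ)⁻¹) • ∑ h : H, L (h : G) v := by simp [Q]

theorem L_Q (H : Subgroup G) [Fintype H] (v : E G) {z : G} (hz : z ∈ H) :
    L z (Q H v) = Q H v := by
  rw [Q_apply, map_smul, map_sum]
  congr 1
  exact Fintype.sum_equiv (Equiv.mulLeft ⟨z, hz⟩) _ _ fun h => by simp [L_mul]

theorem avg {V : Type*} [AddCommGroup V] [Module ℂ V] (H : Subgroup G) [Fintype H] (w : V) :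
    ((Fintype.card H : ℂ)⁻¹) • ∑ _h : H, w = w := by
  have : (Fintype.card H : ℂ) ≠ 0 := by simp
  simp [← Nat.cast_smul_eq_nsmul ℂ, smul_smul, this]

theorem Q_Q (H : Subgroup G) [Fintype H] (v : E G) : Q H (Q H v) = Q H v := by
  rw [Q_apply H (Q H v), Finset.sum_congr rfl fun h _ => L_Q H v h.2, avg]

theorem norm_U (H : Subgroup G) [Fintype H] (v : E G) : ‖v + (I - 1) • Q H v‖ = ‖v‖ := by
  have h1 : ⟪Q H v, Q H v⟫_ℂ = ⟪v, Q H v⟫_ℂ := by
    have : ∀ h : H, ⟪Q H v, L (h : G) v⟫_ℂ = ⟪Q H v, v⟫_ℂ := fun h => by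
      rw [← (L (h : G)).inner_map_map (Q H v) v, L_Q H v h.2]
    rw [← inner_conj_symm v, ← inner_conj_symm (Q H v)]
    congr 1
    nth_rewrite 2 [Q_apply]
    rw [inner_smul_right, inner_sum, Finset.sum_congr rfl fun h _ => this h, ← smul_eq_mul, avg]
  have h2 : ⟪v - Q H v, Q H v⟫_ℂ = 0 := by rw [inner_sub_left, h1, sub_self]
  have h3 := norm_add_sq_eq_norm_sq_add_norm_sq_of_inner_eq_zero (𝕜 := ℂ) _ _ h2
  have h4 := norm_add_sq_eq_norm_sq_add_norm_sq_of_inner_eq_zero (𝕜 := ℂ) (v - Q H v) (I • Q H v)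
    (by rw [inner_smul_right, h2, mul_zero])
  rw [sub_add_cancel] at h3
  rw [norm_smul, norm_I, one_mul, ← h3, show v - Q H v + I • Q H v = v + (I - 1) • Q H v by
    rw [sub_smul, one_smul]; abel] at h4
  exact (mul_self_inj (norm_nonneg _) (norm_nonneg _)).1 h4

theorem exists_Z [Infinite G] {n : ℕ} (hn : 1 ≤ n) (hG : ∀ g : G, g ^ n = 1) :
    ∃ Z : Subgroup G, Finite Z ∧ ∀ F : Set G, F.Finite → ∃ H : Subgroup G, Finite H ∧
      Nat.card H ≤ n ∧ Z < H ∧ ∀ g ∈ F, g ∈ H → g ∈ Z := by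
  classical
  let S : Subgroup G → Set (Subgroup G) := fun Z => {H | Finite H ∧ Nat.card H ≤ n ∧ Z ≤ H}
  have h0 : (S ⊥).Infinite := fun h => by
    refine Set.infinite_univ (α := G) ((h.biUnion (t := fun H => (H : Set G))
      fun H hH => Set.finite_coe_iff.1 hH.1).subset fun g _ => ?_)
    have hg : IsOfFinOrder g := isOfFinOrder_iff_pow_eq_one.2 ⟨n, hn, hG g⟩
    exact Set.mem_biUnion (x := Subgroup.zpowers g) ⟨hg.finite_zpowers, by
      rw [Nat.card_zpowers]; exact orderOf_le_of_pow_eq_one hn (hG g), bot_le⟩ (Subgroup.mem_zpowers g)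
  have hb : ∀ Z, (S Z).Infinite → Finite Z ∧ Nat.card Z ≤ n := fun Z h => by
    obtain ⟨H, h1, h2, h3⟩ := h.nonempty
    exact ⟨Finite.of_injective _ (Subgroup.inclusion_injective h3),
      (Subgroup.card_le_of_le h3).trans h2⟩
  obtain ⟨Z, hZ, hm⟩ : ∃ Z, (S Z).Infinite ∧ ∀ Z', (S Z').Infinite → Nat.card Z' ≤ Nat.card Z := by
    obtain ⟨Z, hZ, e⟩ := Nat.findGreatest_spec (P := fun k => ∃ Z, (S Z).Infinite ∧ Nat.card Z = k)
      (hb _ h0).2 ⟨⊥, h0, rfl⟩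
    exact ⟨Z, hZ, fun Z' h => e ▸ Nat.le_findGreatest (hb _ h).2 ⟨Z', h, rfl⟩⟩
  refine ⟨Z, (hb Z hZ).1, fun F hF => ?_⟩
  have hf : ({Z} ∪ ⋃ g ∈ F \ Z, S (Z ⊔ Subgroup.zpowers g)).Finite := by
    refine (Set.finite_singleton Z).union (hF.sdiff.biUnion fun g hg => ?_)
    by_contra h
    have := (hb _ h).1
    exact hg.2 (Subgroup.eq_of_le_of_card_ge le_sup_left (hm _ h) ▸
      Subgroup.mem_sup_right (Subgroup.mem_zpowers g))
  obtain ⟨H, ⟨h1, h2, h3⟩, h4⟩ := (hZ.sdiff hf).nonempty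
  refine ⟨H, h1, h2, lt_of_le_of_ne h3 fun e => h4 (Or.inl e.symm), fun g hg hH => ?_⟩
  by_contra hz
  exact h4 (Or.inr (Set.mem_biUnion (x := g) ⟨hg, hz⟩
    ⟨h1, h2, sup_le h3 (by simpa using hH)⟩))

theorem step {n : ℕ} (hn : 1 ≤ n) {Z H : Subgroup G} [Fintype H] (hc : Nat.card H ≤ n)
    (hlt : Z < H) (B : E G) (hZ : ∀ z ∈ Z, L z B = B)
    (hF : ∀ x y, B x ≠ 0 → B y ≠ 0 → x * y⁻¹ ∈ H → x * y⁻¹ ∈ Z) {η : ℝ}
    (hη : ∀ x, ‖B x‖ ^ 2 ≤ η) (x : G) :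
    ‖(B + (-I - 1) • Q H B) x‖ ^ 2 ≤ (1 - 1 / (2 * n)) * η := by
  classical
  have hn' : (1 : ℝ) ≤ n := by exact_mod_cast hn
  have hη0 : 0 ≤ η := (sq_nonneg _).trans (hη x)
  have hfin : Finite Z := Finite.of_injective _ (Subgroup.inclusion_injective hlt.le)
  set s : ℝ := Nat.card Z / Nat.card H with hs
  have cH : (0 : ℝ) < Nat.card H := by exact_mod_cast Nat.card_pos
  have cZ : (1 : ℝ) ≤ Nat.card Z := by exact_mod_cast Nat.card_pos
  have s1 : 1 / n ≤ s := by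
    rw [hs, div_le_div_iff₀ (by linarith) cH]
    have : (Nat.card H : ℝ) ≤ n := by exact_mod_cast hc
    nlinarith
  have s2 : s ≤ 1 / 2 := by
    obtain ⟨k, hk⟩ := Subgroup.card_dvd_of_le hlt.le
    have h2 : 2 ≤ k := by
      rcases k with _ | _ | k
      · exact absurd hk Nat.card_pos.ne'
      · exact absurd (Subgroup.eq_of_le_of_card_ge hlt.le (by omega)) hlt.ne
      · omega
    rw [hs, div_le_div_iff₀ cH two_pos, hk]
    have : (2 : ℝ) ≤ k := by exact_mod_cast h2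
    push_cast; nlinarith
  have key : ∀ h0 : H, B ((h0 : G)⁻¹ * x) ≠ 0 → Q H B x = s * B ((h0 : G)⁻¹ * x) := by
    intro h0 h1
    rw [Q_apply, lp.coeFn_smul, lp.coeFn_sum, Pi.smul_apply, Finset.sum_apply,
      ← Equiv.sum_comp (Equiv.mulLeft h0)]
    have : ∀ h : H, L ((Equiv.mulLeft h0 h : H) : G) B x =
        if (h : G) ∈ Z then B ((h0 : G)⁻¹ * x) else 0 := fun h => by
      simp only [Equiv.coe_mulLeft, Subgroup.coe_mul, L_apply, mul_inv_rev, mul_assoc]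
      split_ifs with hz
      · rw [← L_apply, hZ _ hz]
      · by_contra hne
        have e : (h0 : G)⁻¹ * x * ((h : G)⁻¹ * ((h0 : G)⁻¹ * x))⁻¹ = h := by group
        exact hz (e ▸ hF _ _ h1 hne (by rw [e]; exact h.2))
    rw [Finset.sum_congr rfl fun h _ => this h, ← Finset.sum_filter, Finset.sum_const,
      ← Fintype.card_subtype, ← Nat.card_eq_fintype_card, ← Nat.card_eq_fintype_card,
      show Nat.card {h : H // (h : G) ∈ Z} = Nat.card Z from
        Nat.card_congr (Subgroup.subgroupOfEquivOfLe hlt.le).toEquiv]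
    simp [hs, div_eq_inv_mul, mul_assoc]
  have t1 : 1 / (2 * (n : ℝ)) = 1 / n / 2 := by field_simp
  rw [lp.coeFn_add, lp.coeFn_smul, Pi.add_apply, Pi.smul_apply, smul_eq_mul, t1]
  by_cases hx : B x = 0
  · by_cases h : ∃ h0 : H, B ((h0 : G)⁻¹ * x) ≠ 0
    · obtain ⟨h0, h1⟩ := h
      have e : ‖(-I - 1) * (s : ℂ)‖ ^ 2 = 2 * s ^ 2 := by
        rw [Complex.sq_norm, normSq_apply]; simp; ring
      rw [key h0 h1, hx, zero_add, ← mul_assoc, norm_mul, mul_pow, e]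
      exact mul_le_mul (by nlinarith [one_div_pos.2 (show (0 : ℝ) < n by linarith)]) (hη _)
        (sq_nonneg _) (by linarith)
    · push Not at h
      have : Q H B x = 0 := by
        rw [Q_apply, lp.coeFn_smul, lp.coeFn_sum, Pi.smul_apply, Finset.sum_apply]
        simp [L_apply, h]
      rw [hx, this, mul_zero, add_zero, norm_zero, sq, mul_zero]
      exact mul_nonneg (by linarith) hη0
  · have e : ‖1 + (-I - 1) * (s : ℂ)‖ ^ 2 = 1 - 2 * s * (1 - s) := by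
      rw [Complex.sq_norm, normSq_apply]; simp; ring
    have := key 1 (by simpa using hx)
    simp only [Subgroup.coe_one, inv_one, one_mul] at this
    rw [this, ← mul_assoc, ← one_add_mul, norm_mul, mul_pow, e]
    exact mul_le_mul (by nlinarith [one_div_pos.2 (show (0 : ℝ) < n by linarith)]) (hη _)
      (sq_nonneg _) (by linarith)

theorem flat [Infinite G] {n : ℕ} (hn : 1 ≤ n) (hG : ∀ g : G, g ^ n = 1) :
    ∃ P : E G, P ≠ 0 ∧ (Function.support P).Finite ∧ ∀ η > 0, ∃ A B, Rep A ∧ (∀ v, ‖A v‖ = ‖v‖) ∧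
      A B = P ∧ ∀ x, ‖B x‖ ≤ η := by
  classical
  obtain ⟨Z, hZ, hH⟩ := exists_Z hn hG
  have hZ' : (Z : Set G).Finite := Set.finite_coe_iff.1 hZ
  have hs : (Function.support fun x : G => if x ∈ Z then (1 : ℂ) else 0).Finite :=
    hZ'.subset fun x hx => by simpa using hx
  let P : E G := ⟨fun x => if x ∈ Z then 1 else 0, (memℓp_zero hs).of_exponent_ge zero_le⟩
  have key : ∀ k : ℕ, ∃ A B, Rep A ∧ (∀ v, ‖A v‖ = ‖v‖) ∧ A B = P ∧ (Function.support B).Finite ∧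
      (∀ z ∈ Z, L z B = B) ∧ ∀ x, ‖B x‖ ^ 2 ≤ (1 - 1 / (2 * n)) ^ k := by
    intro k
    induction k with
    | zero =>
      refine ⟨_, P, rep_id, fun _ => rfl, rfl, hs, fun z hz => ?_, fun x => ?_⟩
      · ext x; simp [L_apply, P, Z.mul_mem_cancel_left (Z.inv_mem hz)]
      · simp only [P]; split_ifs <;> simp
    | succ k ih =>
      obtain ⟨A, B, h1, h2, h3, h4, h5, h6⟩ := ih
      obtain ⟨H, f1, f2, f3, f4⟩ := hH _ (h4.image2 (fun x y => x * y⁻¹) h4)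
      have := Fintype.ofFinite H
      refine ⟨A + (I - 1) • (A ∘ₗ Q H), B + (-I - 1) • Q H B, h1.add (Rep.smul _ ?_), fun v => ?_,
        ?_, ?_, fun z hz => ?_, fun x => ?_⟩
      · rw [show A ∘ₗ Q H = ((Fintype.card H : ℂ)⁻¹) • ∑ h : H, A ∘ₗ (L (h : G)).toLinearMap from
          LinearMap.ext fun v => by simp [Q_apply]]
        exact Rep.smul _ (Finset.sum_induction _ _ (fun _ _ => Rep.add) rep_zero
          fun h _ => h1.comp _)
      · rw [← norm_U H v, ← h2 (v + _)]; simp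
      · have : (-I - 1 + (I - 1) + (I - 1) * (-I - 1) : ℂ) = 0 := by
          linear_combination (-1 : ℂ) * I_mul_I
        simp only [LinearMap.add_apply, LinearMap.smul_apply, LinearMap.comp_apply, map_add,
          map_smul, Q_Q, h3, smul_add, smul_smul]
        rw [add_assoc, ← add_smul, ← add_smul, show (I - 1 + (-I - 1 + (-I - 1) * (I - 1)) : ℂ) = 0
          by linear_combination this, zero_smul, add_zero]
      · refine ((Set.toFinite (H : Set G)).image2 (· * ·) h4).subset fun x hx => ?_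
        by_contra hn
        have h : ∀ h0 : H, B ((h0 : G)⁻¹ * x) = 0 := fun h0 => by
          by_contra hb
          exact hn ⟨h0, h0.2, _, hb, by simp⟩
        refine hx ?_
        rw [lp.coeFn_add, lp.coeFn_smul, Pi.add_apply, Pi.smul_apply, Q_apply, lp.coeFn_smul,
          lp.coeFn_sum, Pi.smul_apply, Finset.sum_apply]
        simpa [L_apply, h] using h 1
      · rw [map_add, map_smul, h5 z hz, L_Q H B (f3.le hz)]
      · rw [pow_succ' _ k]
        exact step hn f2 f3 B h5 (fun x y hx hy => f4 _ ⟨x, hx, y, hy, rfl⟩) h6 x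
  refine ⟨P, fun h => by simpa [P] using congrArg (fun v : E G => v 1) h, hs, fun η hη => ?_⟩
  have hn' : (1 : ℝ) ≤ n := by exact_mod_cast hn
  obtain ⟨k, hk⟩ := exists_pow_lt_of_lt_one (pow_pos hη 2)
    (show (1 - 1 / (2 * n) : ℝ) < 1 by simp; linarith)
  obtain ⟨A, B, h1, h2, h3, -, -, h6⟩ := key k
  exact ⟨A, B, h1, h2, h3, fun x => (pow_le_pow_iff_left₀ (norm_nonneg _) hη.le two_ne_zero).1
    ((h6 x).trans hk.le)⟩

omit [Group G] in
theorem hs1 (f : lp (fun _ : G => ℂ) 1) : HasSum (fun g => ‖f g‖) ‖f‖ := by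
  simpa using lp.hasSum_norm (by simp) f

theorem result (G : Type*) [Group G] [Infinite G] (n : ℕ) (hn : 1 ≤ n) (hG : ∀ g : G, g ^ n = 1) :
    ¬ UnifOpen G := by
  classical
  intro h
  obtain ⟨δ, hδ, h⟩ := h (1 / 4) (by norm_num)
  obtain ⟨P, hP, hs, hf⟩ := flat hn hG
  let P1 : lp (fun _ : G => ℂ) 1 := ⟨P, (memℓp_zero hs).of_exponent_ge zero_le⟩
  obtain ⟨d, hd, hdδ⟩ : ∃ d : ℝ, 0 < d ∧ d * ‖P1‖ < δ :=
    ⟨δ / (‖P1‖ + 1), by positivity, by
      rw [div_mul_eq_mul_div, div_lt_iff₀ (by positivity)]; nlinarith⟩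
  have hP' : 0 < ‖P‖ := norm_pos_iff.2 hP
  obtain ⟨A, B, ⟨a, a1, a2⟩, h2, h3, h4⟩ := hf (d * ‖P‖ ^ 2) (by positivity)
  let a' : lp (fun _ : G => ℂ) 1 := ⟨a, memℓp_gen (by simpa using a1)⟩
  have c0 : conv a 0 = 0 := by ext x; simp [conv]
  obtain ⟨x0, y0, x1, y1, hx0, hy0, e0⟩ := h a 0 ⇑((d : ℂ) • P1) a1 (by simp [L1])
    (hs1 _).summable (by
      simp only [dist1, c0, Pi.zero_apply, sub_zero]
      rwa [(hs1 _).tsum_eq, norm_smul, norm_real, Real.norm_of_nonneg hd.le])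
  let x : lp (fun _ : G => ℂ) 1 := ⟨x0, memℓp_gen (by simpa [L1] using x1)⟩
  let y : lp (fun _ : G => ℂ) 1 := ⟨y0, memℓp_gen (by simpa [L1] using y1)⟩
  have hx : ‖x - a'‖ < 1 / 4 := (hs1 (x - a')).tsum_eq ▸ hx0
  have hy : ‖y‖ < 1 / 4 := (hs1 y).tsum_eq ▸ (by simpa [dist1] using hy0)
  have e : ⇑((d : ℂ) • P1) = conv x y := e0
  clear_value x y
  let Y : E G := ⟨y, y.2.of_exponent_ge one_le_two⟩
  have u1 : HasSum (fun g => ‖(x - a') g • L g Y‖) (‖x - a'‖ * ‖Y‖) := by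
    simpa [norm_smul] using (hs1 (x - a')).mul_right ‖Y‖
  obtain ⟨U, hU⟩ := u1.summable.of_norm
  have u2 : ‖U‖ ≤ 1 / 4 * ‖Y‖ := (hU.norm_le_of_bounded u1 fun _ => le_rfl).trans (by gcongr)
  have e1 : A Y + U = (d : ℂ) • P := by
    ext t
    have h5 := ((a2 Y).add hU).mapL (innerSL ℂ (lp.single 2 t (1 : ℂ) : E G))
    simp only [innerSL_apply_apply, lp.inner_single_left, RCLike.inner_apply, map_one, mul_one,
      ← add_smul, lp.coeFn_smul, Pi.smul_apply, L_apply, lp.coeFn_sub, Pi.sub_apply] at h5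
    rw [← h5.tsum_eq]
    exact ((congrFun e t).trans (tsum_congr fun g => by simp [a', Y])).symm
  have b1 : ‖Y‖ ≤ d * ‖P‖ + 1 / 4 * ‖Y‖ := by
    rw [← h2 Y, eq_sub_of_add_eq e1]
    refine (norm_sub_le _ _).trans ?_
    rw [← eq_sub_of_add_eq e1, h2, norm_smul]
    simpa [abs_of_pos hd] using u2
  have b2 : ‖⟪P, A Y⟫_ℂ‖ ≤ d * ‖P‖ ^ 2 * ‖y‖ := by
    have e2 : ⟪A B, A Y⟫_ℂ = ⟪B, Y⟫_ℂ := (LinearIsometry.mk A h2).inner_map_map B Y
    rw [h3] at e2
    rw [e2]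
    refine (lp.hasSum_inner B Y).norm_le_of_bounded ((hs1 y).mul_left _) fun g => ?_
    exact (norm_inner_le_norm _ _).trans (mul_le_mul_of_nonneg_right (h4 g) (norm_nonneg _))
  have b3 : d * ‖P‖ ^ 2 ≤ ‖⟪P, A Y⟫_ℂ‖ + ‖P‖ * ‖U‖ := by
    have : ‖⟪P, A Y + U⟫_ℂ‖ = d * ‖P‖ ^ 2 := by
      rw [e1, inner_smul_right, inner_self_eq_norm_sq_to_K]; simp [abs_of_pos hd]
    rw [← this, inner_add_right]
    exact (norm_add_le _ _).trans (by gcongr; exact norm_inner_le_norm _ _)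
  have b4 : ‖P‖ * ‖U‖ ≤ ‖P‖ * (d * ‖P‖ / 3) := by gcongr; linarith
  have b5 : d * ‖P‖ ^ 2 * ‖y‖ ≤ d * ‖P‖ ^ 2 * (1 / 4) := by gcongr
  nlinarith [mul_pos hd (pow_pos hP' 2)]

end Pool.Agent.Results.MP_09b497_an.NotUnif
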